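import Pool.Agent.helper58.FI4.SpecC

/-!
# Row fi4:CPR of MP_baa4d7_al: primitive roots
-/

set_option autoImplicit false

namespace Pool.Agent.FI4C

open Pool.Agent.helper58.DC Pool.Agent.DI Pool.Agent.GR Pool.Agent.OB Pool.Agent.DR Pool.Agent.FI Pool.Agent.FI3 Pool.Agent.FI4

theorem CPR : CPR_stmt := by
  intro p n m i hp hpn hG hi hmi
  haveI : Fact p.Prime := ⟨hp⟩
  obtain ⟨g, hg⟩ := IsCyclic.exists_generator (α := (ZMod p)ˣ)
  have ho : orderOf g = p - 1 := by
    rw [orderOf_eq_card_of_forall_mem_zpowers hg, Nat.card_eq_fintype_card, ZMod.card_units_eq_totient, Nat.totient_prime hp]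
  have hs : (((g : ZMod p).val : ℕ) : ZMod p) = (g : ZMod p) := ZMod.natCast_zmod_val _
  have hnd : ¬ p ∣ (g : ZMod p).val := by
    intro h
    rw [(ZMod.natCast_eq_zero_iff _ _).2 h] at hs
    exact g.ne_zero hs.symm
  obtain ⟨j, hj⟩ := hG.gen _ hnd
  have h1 := hj 1 (by rw [pow_one]; exact hpn)
  rw [pow_one] at h1
  have h2 : ((m : ZMod p)) ^ j = (g : ZMod p) := by
    have h := (ZMod.natCast_eq_natCast_iff _ _ _).2 h1
    rw [Nat.cast_pow, hs] at h
    exact h
  have h3 : ((m : ZMod p)) ^ i = 1 := by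
    have h := (ZMod.natCast_eq_natCast_iff _ _ _).2 hmi
    rw [Nat.cast_pow, Nat.cast_one] at h
    exact h
  have h4 : g ^ i = 1 := by
    apply Units.ext
    rw [Units.val_pow_eq_pow_val, Units.val_one, ← h2, ← pow_mul, mul_comm, pow_mul, h3, one_pow]
  have h5 := orderOf_dvd_of_pow_eq_one h4
  rw [ho] at h5
  exact Nat.le_of_dvd hi h5

end Pool.Agent.FI4C
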